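import Pool.Agent.Y645.UP.Stm

/-! Project UP: the gates of a clean tuple. -/

set_option autoImplicit false
set_option linter.all false

namespace Pool.Agent.Y427.UP

open MvPolynomial Pool.Agent.Y645.UL Pool.Agent.Y645.UM Pool.Agent.Y645.UP

theorem tt_tr {k L : Type} [Field k] [Field L] [Algebra k L] (R : Subalgebra k L) (t e : L)
    (ht : Transcendental R t) (h : TT R t e) : Transcendental k e := by
  obtain ⟨r, hr, rfl⟩ := h
  rintro ⟨h, hh, he⟩
  apply ht
  refine ⟨(h.map (algebraMap k R)).comp r, ?_, ?_⟩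
  · intro h0
    rw [Polynomial.comp_eq_zero_iff] at h0
    rcases h0 with h0 | ⟨_, h0⟩
    · exact hh ((Polynomial.map_eq_zero_iff (algebraMap k R).injective).1 h0)
    · rw [h0, Polynomial.natDegree_C] at hr
      exact lt_irrefl _ hr
  · rw [Polynomial.aeval_comp, Polynomial.aeval_map_algebraMap]
    exact he

theorem alg_trans {k L : Type} [Field k] [Field L] [Algebra k L] (a b : L)
    (ha : IsAlgebraic k a) (hb : IsAlgebraic (Algebra.adjoin k {a}) b) : IsAlgebraic k b := by
  have h1 : Algebra.IsIntegral k (Algebra.adjoin k {a}) := by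
    apply Algebra.IsIntegral.adjoin
    intro z hz
    rw [Set.mem_singleton_iff] at hz
    rw [hz]
    exact ha.isIntegral
  have h2 : Algebra.IsAlgebraic k (Algebra.adjoin k {a}) := h1.isAlgebraic
  exact hb.restrictScalars k

theorem tt_poly {k L J : Type} [Field k] [Field L] [Algebra k L] (x : J → L) (t e : L)
    (h : TT (Algebra.adjoin k (Set.range x)) t e) :
    ∃ q : MvPolynomial (Option J) k, aeval (ext x t) q = e := by
  obtain ⟨r, _, rfl⟩ := h
  have hR : Algebra.adjoin k (Set.range x) ≤
      (aeval (ext x t) : MvPolynomial (Option J) k →ₐ[k] L).range := by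
    rw [Algebra.adjoin_le_iff]
    rintro _ ⟨j, rfl⟩
    exact ⟨X (some j), aeval_X _ _⟩
  have ht : t ∈ (aeval (ext x t) : MvPolynomial (Option J) k →ₐ[k] L).range :=
    ⟨X none, aeval_X _ _⟩
  have h1 : Polynomial.aeval t r ∈ (aeval (ext x t) : MvPolynomial (Option J) k →ₐ[k] L).range := by
    rw [Polynomial.aeval_eq_sum_range]
    refine sum_mem fun i _ => ?_
    rw [Algebra.smul_def]
    exact mul_mem (hR (r.coeff i).2) (pow_mem ht i)
  exact h1

section main

variable {k L J : Type} [Field k] [Field L] [Algebra k L]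

/-- the gates -/
def sig (σ₁ : Set (L × L)) (x : J → L) (t : L) : Set (L × L) :=
  σ₁ ∪ (Set.range (fun j => (x j, t)) ∪ {(t, t)})

/-- the values -/
def yy (A B : Set (L × L)) (m : (A ⊕ B) × Fin 3) : L :=
  Sum.elim (fun p : A => ![p.1.1, p.1.2, p.1.1 + p.1.2])
    (fun p : B => ![p.1.1, p.1.2, p.1.1 * p.1.2]) m.1 m.2

end main

theorem t_ENC (h2 : Pool.Agent.Y645.UP.S_ENC2) : Pool.Agent.Y645.UP.S_ENC := by
  intro k L J _ _ _ _ _ _ _ D hD x t B hx ht hB
  classical
  obtain ⟨σ₁, σ₂, hf1, hf2, hv, hη⟩ := h2 k L J x t B hB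
  set R := Algebra.adjoin k (Set.range x) with hR
  have hcz : CharZero L := charZero_of_injective_algebraMap (algebraMap k L).injective
  have hczR : CharZero R := charZero_of_injective_algebraMap (algebraMap k R).injective
  -- transcendental values
  have hTt : TT R t t := ⟨Polynomial.X, by simp, by simp⟩
  have hTtt : TT R t (t + t) := ⟨Polynomial.C 2 * Polynomial.X, by
    rw [Polynomial.natDegree_C_mul two_ne_zero, Polynomial.natDegree_X]
    exact Nat.one_pos, by
    rw [map_mul, Polynomial.aeval_C, Polynomial.aeval_X, map_ofNat]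
    ring⟩
  have hTx : ∀ j, TT R t (x j + t) := by
    intro j
    refine ⟨Polynomial.X + Polynomial.C (⟨x j, Algebra.subset_adjoin ⟨j, rfl⟩⟩ : R), ?_, ?_⟩
    · rw [Polynomial.natDegree_X_add_C]
      exact Nat.one_pos
    · rw [map_add, Polynomial.aeval_X, Polynomial.aeval_C, add_comm]
      rfl
  obtain ⟨A, hA⟩ : ∃ A, A = sig σ₁ x t := ⟨_, rfl⟩
  have hAx : ∀ j, (x j, t) ∈ A := fun j => by
    rw [hA]
    exact Or.inr (Or.inl ⟨j, rfl⟩)
  have hAt : (t, t) ∈ A := by
    rw [hA]
    exact Or.inr (Or.inr rfl)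
  have hAs : ∀ p ∈ σ₁, p ∈ A := fun p hp => by
    rw [hA]
    exact Or.inl hp
  have hAf : A.Finite := by
    rw [hA]
    exact hf1.union ((Set.finite_range _).union (Set.finite_singleton _))
  have i1 : Fintype A := hAf.fintype
  have i2 : Fintype σ₂ := hf2.fintype
  -- classification
  have hcl : ∀ m : (A ⊕ σ₂) × Fin 3, TT R t (yy A σ₂ m) ∨
      ∃ j, m = (Sum.inl ⟨(x j, t), hAx j⟩, 0) := by
    rintro ⟨⟨⟨a, b⟩, hp⟩ | ⟨⟨a, b⟩, hp⟩, i⟩
    · have hp' := hp
      rw [hA] at hp'
      rcases hp' with h | ⟨j, h⟩ | h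
      · left
        apply hv
        left
        refine ⟨(a, b), h, ?_⟩
        fin_cases i
        · exact Or.inl rfl
        · exact Or.inr (Or.inl rfl)
        · exact Or.inr (Or.inr rfl)
      · have ha : x j = a := congrArg Prod.fst h
        have hb : t = b := congrArg Prod.snd h
        subst ha
        subst hb
        fin_cases i
        · exact Or.inr ⟨j, rfl⟩
        · exact Or.inl hTt
        · exact Or.inl (hTx j)
      · have ha : a = t := congrArg Prod.fst h
        have hb : b = t := congrArg Prod.snd h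
        subst ha
        subst hb
        fin_cases i
        · exact Or.inl hTt
        · exact Or.inl hTt
        · exact Or.inl hTtt
    · left
      apply hv
      right
      refine ⟨(a, b), hp, ?_⟩
      fin_cases i
      · exact Or.inl rfl
      · exact Or.inr (Or.inl rfl)
      · exact Or.inr (Or.inr rfl)
  have hyx : ∀ j, yy A σ₂ (Sum.inl ⟨(x j, t), hAx j⟩, 0) = x j := fun j => rfl
  refine ⟨A, σ₂, i1, i2, yy A σ₂, ⟨fun i => rfl, fun i => rfl⟩, ⟨?_, ?_⟩, ?_, ?_, ?_⟩
  · -- not special
    intro m hs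
    rcases hcl m with h | ⟨j, rfl⟩
    · obtain ⟨c, _, hc⟩ := hs
      apply tt_tr R t _ ht h
      rw [hc]
      exact isAlgebraic_algebraMap c
    · rw [hyx] at hs
      exact hx.1 j hs
  · -- isogenous values
    intro m m' hne hrel
    rcases hcl m with h | ⟨j, rfl⟩
    · exact tt_tr R t _ ht h
    · rw [hyx] at hrel ⊢
      by_contra htr
      have halg : IsAlgebraic k (x j) := by
        by_contra h
        exact htr h
      have h3 := (hD.1 L).2.2.2.1 _ _ hrel
      have h4 := alg_trans _ _ halg h3
      rcases hcl m' with h | ⟨i, rfl⟩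
      · exact tt_tr R t _ ht h h4
      · rw [hyx] at hrel
        by_cases hij : j = i
        · subst hij
          exact hne rfl
        · exact htr (hx.2 j i hij hrel)
  · intro m
    rcases hcl m with h | ⟨j, rfl⟩
    · exact tt_poly x t _ h
    · exact ⟨X (some j), aeval_X _ _⟩
  · intro o
    cases o with
    | none => exact ⟨(Sum.inl ⟨(t, t), hAt⟩, 0), rfl⟩
    | some j => exact ⟨(Sum.inl ⟨(x j, t), hAx j⟩, 0), rfl⟩
  · intro η hsum hmul hb h0
    have hsum' : ∀ p ∈ A, η (p.1 + p.2) = η p.1 + η p.2 := fun p hp => hsum ⟨p, hp⟩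
    have hmul' : ∀ p ∈ σ₂, η (p.1 * p.2) = p.2 * η p.1 + p.1 * η p.2 := fun p hp => hmul ⟨p, hp⟩
    obtain ⟨g1, g2⟩ := hη η ⟨fun p hp => hsum' p (hAs p hp), hmul'⟩ (by
      intro b hbB
      have := hsum' _ (hAx b)
      simp only at this
      rw [add_comm, this, hb b hbB, h0, add_zero]) h0
    have gx : ∀ j, η (x j) = 0 := by
      intro j
      have h5 := hsum' _ (hAx j)
      simp only at h5
      rw [add_comm, g1 j, h0, add_zero] at h5
      exact h5.symm
    have gtt : η (t + t) = 0 := by
      have h5 := hsum' _ hAt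
      simp only at h5
      rw [h5, h0, add_zero]
    rintro ⟨⟨⟨a, b⟩, hp⟩ | ⟨⟨a, b⟩, hp⟩, i⟩
    · have hp' := hp
      rw [hA] at hp'
      rcases hp' with h | ⟨j, h⟩ | h
      · apply g2
        left
        refine ⟨(a, b), h, ?_⟩
        fin_cases i
        · exact Or.inl rfl
        · exact Or.inr (Or.inl rfl)
        · exact Or.inr (Or.inr rfl)
      · have ha : x j = a := congrArg Prod.fst h
        have hb' : t = b := congrArg Prod.snd h
        subst ha
        subst hb'
        fin_cases i
        · exact gx j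
        · exact h0
        · change η (x j + t) = 0
          rw [add_comm]
          exact g1 j
      · have ha : a = t := congrArg Prod.fst h
        have hb' : b = t := congrArg Prod.snd h
        subst ha
        subst hb'
        fin_cases i
        · exact h0
        · exact h0
        · exact gtt
    · apply g2
      right
      refine ⟨(a, b), hp, ?_⟩
      fin_cases i
      · exact Or.inl rfl
      · exact Or.inr (Or.inl rfl)
      · exact Or.inr (Or.inr rfl)

end Pool.Agent.Y427.UP
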